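import Mathlib
import Pool.Agent.H999R2.HCDrift

/-!
# A uniform complex contraction region for hard-core Glauber dynamics

For every `Δ ≥ 2` there is a domain `D` containing the interval `[0, 1/(Δ-1))` (even the closed
interval) such that the single-site heat-bath dynamics of every finite graph of maximum degree at
most `Δ`, with arbitrary vertex-dependent complex fugacities in `D`, has spectral radius `< 1`
modulo constants.
-/

set_option autoImplicit false
set_option linter.unusedSectionVars false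

open Finset

namespace Pool.Agent.Results.MP_eb4d96_pr.UniformContraction

universe u

/-- The set `Ω` of independent sets of the graph `G`. -/
@[ext]
structure IndSets {V : Type u} (G : SimpleGraph V) : Type u where
  /-- the set of occupied vertices -/
  val : Finset V
  /-- no two occupied vertices are adjacent -/
  indep : G.IsIndepSet (val : Set V)

noncomputable instance {V : Type u} [Fintype V] (G : SimpleGraph V) : Fintype (IndSets G) := by
  classical exact Fintype.ofInjective IndSets.val fun I J h => IndSets.ext h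

/-- The transition matrix of the single-site heat-bath (Glauber) dynamics of the hard-core model
on `G` with (complex) fugacities `w`: from `I`, a vertex `x` is chosen uniformly at random; if no
neighbour of `x` lies in `I`, move to `I ∪ {x}` with weight `w x / (1 + w x)` and to `I \ {x}` with
weight `1 / (1 + w x)`; otherwise move to `I \ {x}`. -/
noncomputable def glauber {V : Type u} [Fintype V] [DecidableEq V] (G : SimpleGraph V)
    [DecidableRel G.Adj] (w : V → ℂ) : Matrix (IndSets G) (IndSets G) ℂ :=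
  fun I J => (Fintype.card V : ℂ)⁻¹ * ∑ x : V,
    if ∀ y ∈ I.val, ¬ G.Adj x y then
      (if J.val = insert x I.val then w x / (1 + w x) else 0) +
        (if J.val = I.val.erase x then 1 / (1 + w x) else 0)
    else
      (if J.val = I.val.erase x then 1 else 0)

/-- The linear map induced by a matrix `P` with `P 1 = 1` on the quotient of the space of functions
by the constant functions. -/
noncomputable def modConst {Ω : Type u} [Fintype Ω] (P : Matrix Ω Ω ℂ)
    (hP : P.mulVec 1 = 1) : Module.End ℂ ((Ω → ℂ) ⧸ Submodule.span ℂ {(1 : Ω → ℂ)}) :=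
  Submodule.mapQ _ _ P.mulVecLin (by
    rw [Submodule.span_le]
    rintro _ rfl
    simp [hP])

section proof

open Pool.Agent.H999R2.HC

variable {V : Type u} [Fintype V] [DecidableEq V] (G : SimpleGraph V) [DecidableRel G.Adj]

lemma IndSets.ext' {G : SimpleGraph V} {I J : IndSets G} (h : I.val = J.val) : I = J :=
  IndSets.ext h

variable {G} in
/-- remove `x` -/
def vac (x : V) (I : IndSets G) : IndSets G :=
  ⟨I.val.erase x, by
    intro a ha b hb hab
    exact I.indep (by simpa using (Finset.mem_erase.1 (Finset.mem_coe.1 ha)).2)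
      (by simpa using (Finset.mem_erase.1 (Finset.mem_coe.1 hb)).2) hab⟩

/-- add `x` if possible, otherwise remove it -/
def occ (x : V) (I : IndSets G) : IndSets G :=
  if h : ∀ y ∈ I.val, ¬ G.Adj x y then
    ⟨insert x I.val, by
      intro a ha b hb hab
      rw [Finset.mem_coe, Finset.mem_insert] at ha hb
      rcases ha with rfl | ha
      · rcases hb with rfl | hb
        · exact absurd rfl hab
        · exact h b hb
      · rcases hb with rfl | hb
        · exact fun h' => h a ha h'.symm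
        · exact I.indep (by simpa using ha) (by simpa using hb) hab⟩
  else vac x I

/-- `g` depends only on the coordinates in `A` -/
def Dep (g : IndSets G → ℂ) (A : Finset V) : Prop :=
  ∀ I J : IndSets G, I.val ∩ A = J.val ∩ A → g I = g J

/-- action of the matrix -/
lemma glauber_mulVec (w : V → ℂ) (f : IndSets G → ℂ) (I : IndSets G)
    (hw : ∀ x, 1 + w x ≠ 0) :
    (glauber G w).mulVec f I = (Fintype.card V : ℂ)⁻¹ * ∑ x : V,
      (1 / (1 + w x) * f (vac x I) + w x / (1 + w x) * f (occ G x I)) := by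
  unfold Matrix.mulVec dotProduct glauber
  simp_rw [mul_assoc, ← Finset.mul_sum, Finset.sum_mul]
  rw [Finset.sum_comm]
  congr 1
  refine Finset.sum_congr rfl fun x _ => ?_
  have hv : ∀ (c : ℂ), ∑ J : IndSets G, (if J.val = I.val.erase x then c else 0) * f J
      = c * f (vac x I) := by
    intro c
    rw [Finset.sum_eq_single (vac x I)]
    · simp [vac]
    · intro J _ hJ
      rw [if_neg, zero_mul]
      intro h
      exact hJ (IndSets.ext' h)
    · intro h; exact absurd (Finset.mem_univ _) h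
  by_cases h : ∀ y ∈ I.val, ¬ G.Adj x y
  · simp only [if_pos h]
    simp_rw [add_mul, Finset.sum_add_distrib]
    rw [hv, add_comm]
    congr 1
    have ho : (occ G x I).val = insert x I.val := by unfold occ; rw [dif_pos h]
    rw [Finset.sum_eq_single (occ G x I)]
    · rw [if_pos ho]
    · intro J _ hJ
      rw [if_neg, zero_mul]
      intro h'
      exact hJ (IndSets.ext' (h'.trans ho.symm))
    · intro h; exact absurd (Finset.mem_univ _) h
  · simp only [if_neg h]
    rw [hv]
    have ho : occ G x I = vac x I := by unfold occ; rw [dif_neg h]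
    rw [ho, ← add_mul]
    have := hw x
    congr 1
    field_simp

lemma Dep.vac {g : IndSets G → ℂ} {A : Finset V} (hg : Dep G g A) (x : V) :
    Dep G (fun I => g (vac x I)) (A.erase x) := by
  intro I J h
  apply hg
  ext y
  have := Finset.ext_iff.1 h y
  simp only [Finset.mem_inter, Finset.mem_erase] at this
  simp only [UniformContraction.vac, Finset.mem_inter, Finset.mem_erase]
  tauto

lemma Dep.occ {g : IndSets G → ℂ} {A : Finset V} (hg : Dep G g A) (x : V) :
    Dep G (fun I => g (occ G x I)) (A.erase x ∪ G.neighborFinset x) := by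
  intro I J h
  have h' : ∀ y, (y ∈ I.val ∧ (y ≠ x ∧ y ∈ A ∨ G.Adj x y)) ↔
      (y ∈ J.val ∧ (y ≠ x ∧ y ∈ A ∨ G.Adj x y)) := by
    intro y
    have := Finset.ext_iff.1 h y
    simpa only [Finset.mem_inter, Finset.mem_union, Finset.mem_erase,
      SimpleGraph.mem_neighborFinset] using this
  apply hg
  have hc : (∀ y ∈ I.val, ¬ G.Adj x y) ↔ (∀ y ∈ J.val, ¬ G.Adj x y) := by
    constructor
    · intro hI y hy hxy
      exact hI y ((h' y).2 ⟨hy, Or.inr hxy⟩).1 hxy
    · intro hJ y hy hxy
      exact hJ y ((h' y).1 ⟨hy, Or.inr hxy⟩).1 hxy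
  by_cases hI : ∀ y ∈ I.val, ¬ G.Adj x y
  · have hJ := hc.1 hI
    unfold UniformContraction.occ
    rw [dif_pos hI, dif_pos hJ]
    ext y
    have := h' y
    simp only [Finset.mem_inter, Finset.mem_insert]
    by_cases hyx : y = x
    · subst hyx; simp
    · by_cases hyA : y ∈ A
      · simp only [hyx, false_or, hyA, and_true]
        simpa [hyx, hyA] using this
      · simp [hyA]
  · have hJ := fun h => hI (hc.2 h)
    unfold UniformContraction.occ
    rw [dif_neg hI, dif_neg hJ]
    unfold UniformContraction.vac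
    ext y
    have := h' y
    simp only [Finset.mem_inter, Finset.mem_erase]
    by_cases hyx : y = x
    · subst hyx; simp
    · by_cases hyA : y ∈ A
      · simp only [hyx, ne_eq, not_false_eq_true, hyA, and_true, true_and]
        simpa [hyx, hyA] using this
      · simp [hyA]

lemma vac_of_notMem {g : IndSets G → ℂ} {A : Finset V} (hg : Dep G g A) {x : V} (hx : x ∉ A)
    (I : IndSets G) : g (vac x I) = g I := by
  apply hg
  ext y
  simp only [vac, Finset.mem_inter, Finset.mem_erase]
  constructor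
  · rintro ⟨⟨_, h⟩, h'⟩; exact ⟨h, h'⟩
  · rintro ⟨h, h'⟩; exact ⟨⟨fun e => hx (e ▸ h'), h⟩, h'⟩

lemma occ_of_notMem {g : IndSets G → ℂ} {A : Finset V} (hg : Dep G g A) {x : V} (hx : x ∉ A)
    (I : IndSets G) : g (occ G x I) = g I := by
  unfold occ
  split_ifs with h
  · apply hg
    ext y
    simp only [Finset.mem_inter, Finset.mem_insert]
    constructor
    · rintro ⟨h | h, h'⟩
      · exact absurd (h ▸ h') hx
      · exact ⟨h, h'⟩
    · rintro ⟨h, h'⟩; exact ⟨Or.inr h, h'⟩
  · exact vac_of_notMem G hg hx I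

/-- Gauge of a function modulo constants. -/
inductive Rep (H : Finset V → ℝ) : (IndSets G → ℂ) → ℝ → Prop
  | const (c : ℂ) : Rep H (fun _ => c) 0
  | base (g : IndSets G → ℂ) (A : Finset V) (M : ℝ) (hA : A.Nonempty) (hg : Dep G g A)
      (hM : ∀ I, ‖g I‖ ≤ M) : Rep H g (M * H A)
  | add (f f' : IndSets G → ℂ) (r r' : ℝ) (hf : Rep H f r) (hf' : Rep H f' r') :
      Rep H (fun I => f I + f' I) (r + r')
  | mono (f : IndSets G → ℂ) (r r' : ℝ) (hf : Rep H f r) (hr : r ≤ r') : Rep H f r'

variable {G} {H : Finset V → ℝ}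

/-- the empty independent set -/
def emp : IndSets G := ⟨∅, by simp [SimpleGraph.IsIndepSet]⟩

lemma Rep.base' (hH : ∀ A, 1 ≤ H A) {g : IndSets G → ℂ} {A : Finset V} {M : ℝ}
    (hg : Dep G g A) (hM : ∀ I, ‖g I‖ ≤ M) : Rep G H g (M * H A) := by
  rcases A.eq_empty_or_nonempty with rfl | hA
  · have h1 : g = fun _ => g emp := by
      funext I; exact hg I emp (by simp)
    rw [h1]
    refine Rep.mono _ 0 _ (Rep.const _) ?_
    have := (norm_nonneg _).trans (hM emp)
    have := hH ∅
    positivity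
  · exact Rep.base g A M hA hg hM

lemma Rep.smul {f : IndSets G → ℂ} {r : ℝ} (hf : Rep G H f r) (c : ℂ) :
    Rep G H (fun I => c * f I) (‖c‖ * r) := by
  induction hf with
  | const a => simpa using Rep.const (G := G) (H := H) (c * a)
  | base g A M hA hg hM =>
    rw [← mul_assoc]
    refine Rep.base _ A _ hA (fun I J h => by rw [hg I J h]) (fun I => ?_)
    rw [norm_mul]; exact mul_le_mul_of_nonneg_left (hM I) (norm_nonneg _)
  | add f f' r r' _ _ h1 h2 =>
    have := Rep.add _ _ _ _ h1 h2
    simpa only [mul_add] using this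
  | mono f r r' _ hr h => exact Rep.mono _ _ _ h (mul_le_mul_of_nonneg_left hr (norm_nonneg _))

lemma Rep.sum {ι : Type*} (s : Finset ι) (f : ι → IndSets G → ℂ) (r : ι → ℝ)
    (h : ∀ i ∈ s, Rep G H (f i) (r i)) : Rep G H (fun I => ∑ i ∈ s, f i I) (∑ i ∈ s, r i) := by
  classical
  induction s using Finset.induction_on with
  | empty => simpa using Rep.const (G := G) (H := H) 0
  | insert a s ha ih =>
    have h1 := Rep.add _ _ _ _ (h a (Finset.mem_insert_self _ _))
      (ih fun i hi => h i (Finset.mem_insert_of_mem hi))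
    simpa only [Finset.sum_insert ha] using h1

lemma Rep.close (hH : ∀ A, 1 ≤ H A) {f : IndSets G → ℂ} {r : ℝ} (hf : Rep G H f r) :
    ∃ c : ℂ, ∀ I, ‖f I - c‖ ≤ r := by
  induction hf with
  | const a => exact ⟨a, fun I => by simp⟩
  | base g A M hA hg hM =>
    refine ⟨0, fun I => ?_⟩
    rw [sub_zero]
    refine (hM I).trans (le_mul_of_one_le_right ((norm_nonneg _).trans (hM emp)) (hH A))
  | add f f' r r' _ _ h1 h2 =>
    obtain ⟨c, hc⟩ := h1
    obtain ⟨c', hc'⟩ := h2
    refine ⟨c + c', fun I => ?_⟩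
    have : f I + f' I - (c + c') = (f I - c) + (f' I - c') := by ring
    rw [this]
    exact (norm_add_le _ _).trans (add_le_add (hc I) (hc' I))
  | mono f r r' _ hr h =>
    obtain ⟨c, hc⟩ := h
    exact ⟨c, fun I => (hc I).trans hr⟩

/-- One step of the dynamics contracts the gauge. -/
lemma Rep.step [Nonempty V] (hH : ∀ A, 1 ≤ H A) {w : V → ℂ} (hw : ∀ x, 1 + w x ≠ 0) {c : ℝ}
    (hc : ∀ A : Finset V, A.Nonempty → ∑ x ∈ A, (‖1 / (1 + w x)‖ * H (A.erase x) +
      ‖w x / (1 + w x)‖ * H (A.erase x ∪ G.neighborFinset x)) ≤ (A.card - c) * H A)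
    {f : IndSets G → ℂ} {r : ℝ} (hf : Rep G H f r) :
    Rep G H ((glauber G w).mulVec f) ((1 - c / Fintype.card V) * r) := by
  have hn : (0:ℝ) < Fintype.card V := by exact_mod_cast Fintype.card_pos
  have hn' : (Fintype.card V : ℂ) ≠ 0 := by exact_mod_cast hn.ne'
  induction hf with
  | const a =>
    have : (glauber G w).mulVec (fun _ => a) = fun _ => a := by
      funext I
      rw [glauber_mulVec G w _ I hw]
      have : ∀ x ∈ (Finset.univ : Finset V), 1 / (1 + w x) * a + w x / (1 + w x) * a = a := by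
        intro x _
        have := hw x
        field_simp
      rw [Finset.sum_congr rfl this, Finset.sum_const, nsmul_eq_mul, Finset.card_univ]
      field_simp
    rw [this]
    simpa using Rep.const (G := G) (H := H) a
  | base g A M hA hg hM =>
    have hM0 : 0 ≤ M := (norm_nonneg _).trans (hM emp)
    set rr : V → ℝ := fun x => if x ∈ A then M * (‖1 / (1 + w x)‖ * H (A.erase x) +
      ‖w x / (1 + w x)‖ * H (A.erase x ∪ G.neighborFinset x)) else M * H A with hrr
    have h1 : ∀ x ∈ (Finset.univ : Finset V), Rep G H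
        (fun I => 1 / (1 + w x) * g (vac x I) + w x / (1 + w x) * g (occ G x I)) (rr x) := by
      intro x _
      by_cases hx : x ∈ A
      · have e1 := (Rep.base' hH (hg.vac G x) (fun I => hM _)).smul (1 / (1 + w x))
        have e2 := (Rep.base' hH (hg.occ G x) (fun I => hM _)).smul (w x / (1 + w x))
        have e3 := Rep.add _ _ _ _ e1 e2
        refine Rep.mono _ _ _ e3 (le_of_eq ?_)
        simp only [hrr, if_pos hx]; ring
      · have e1 : (fun I => 1 / (1 + w x) * g (vac x I) + w x / (1 + w x) * g (occ G x I)) = g := by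
          funext I
          rw [vac_of_notMem G hg hx, occ_of_notMem G hg hx]
          have := hw x
          field_simp
        rw [e1]
        simp only [hrr, if_neg hx]
        exact Rep.base g A M hA hg hM
    have h2 := (Rep.sum Finset.univ _ _ h1).smul (Fintype.card V : ℂ)⁻¹
    have h3 : (glauber G w).mulVec g = fun I => (Fintype.card V : ℂ)⁻¹ * ∑ x : V,
      (1 / (1 + w x) * g (vac x I) + w x / (1 + w x) * g (occ G x I)) := by
      funext I; exact glauber_mulVec G w g I hw
    rw [h3]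
    refine Rep.mono _ _ _ h2 ?_
    rw [norm_inv, Complex.norm_natCast]
    have h4 : ∑ x, rr x = M * ∑ x ∈ A, (‖1 / (1 + w x)‖ * H (A.erase x) +
        ‖w x / (1 + w x)‖ * H (A.erase x ∪ G.neighborFinset x)) +
        ((Fintype.card V : ℝ) - A.card) * (M * H A) := by
      rw [← Finset.sum_add_sum_compl A rr]
      congr 1
      · rw [Finset.mul_sum]
        exact Finset.sum_congr rfl fun x hx => by simp only [hrr, if_pos hx]
      · have : ∀ x ∈ Aᶜ, rr x = M * H A := by
          intro x hx
          simp only [hrr, if_neg (Finset.mem_compl.1 hx)]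
        rw [Finset.sum_congr rfl this, Finset.sum_const, nsmul_eq_mul, Finset.card_compl,
          Nat.cast_sub (Finset.card_le_univ A)]
    rw [h4]
    have h5 := mul_le_mul_of_nonneg_left (hc A hA) hM0
    have h6 : (Fintype.card V : ℝ)⁻¹ * (M * ∑ x ∈ A, (‖1 / (1 + w x)‖ * H (A.erase x) +
        ‖w x / (1 + w x)‖ * H (A.erase x ∪ G.neighborFinset x)) +
        ((Fintype.card V : ℝ) - A.card) * (M * H A)) ≤
        (Fintype.card V : ℝ)⁻¹ * (M * ((A.card - c) * H A) +
        ((Fintype.card V : ℝ) - A.card) * (M * H A)) :=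
      mul_le_mul_of_nonneg_left (by linarith) (by positivity)
    refine h6.trans (le_of_eq ?_)
    field_simp
    ring
  | add f f' r r' _ _ h1 h2 =>
    have h3 := Rep.add _ _ _ _ h1 h2
    have h4 : (glauber G w).mulVec (fun I => f I + f' I) =
        fun I => (glauber G w).mulVec f I + (glauber G w).mulVec f' I := by
      have := Matrix.mulVec_add (glauber G w) f f'
      exact this
    rw [h4, mul_add]; exact h3
  | mono f r r' hf hr h =>
    have hcn : 0 ≤ 1 - c / Fintype.card V := by
      have h0 := hc Finset.univ Finset.univ_nonempty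
      have h1 : 0 ≤ ∑ x ∈ (Finset.univ : Finset V), (‖1 / (1 + w x)‖ * H (Finset.univ.erase x) +
        ‖w x / (1 + w x)‖ * H (Finset.univ.erase x ∪ G.neighborFinset x)) := by
        refine Finset.sum_nonneg fun x _ => ?_
        have a1 := hH (Finset.univ.erase x)
        have a2 := hH (Finset.univ.erase x ∪ G.neighborFinset x)
        positivity
      have h2 := hH (Finset.univ : Finset V)
      have h3 : 0 ≤ ((Fintype.card V : ℝ) - c) * H Finset.univ := by
        have := h1.trans h0
        rwa [Finset.card_univ] at this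
      have h4 : 0 ≤ (Fintype.card V : ℝ) - c := by
        by_contra h'
        push Not at h'
        nlinarith
      rw [sub_nonneg, div_le_one hn]; linarith
    exact Rep.mono _ _ _ h (mul_le_mul_of_nonneg_left hr hcn)

/-- The constant function `1` is fixed. -/
lemma glauber_one [Nonempty V] {w : V → ℂ} (hw : ∀ x, 1 + w x ≠ 0) :
    (glauber G w).mulVec 1 = 1 := by
  have hn' : (Fintype.card V : ℂ) ≠ 0 := by exact_mod_cast Fintype.card_pos.ne'
  funext I
  rw [glauber_mulVec G w _ I hw]
  have : ∀ x ∈ (Finset.univ : Finset V), 1 / (1 + w x) * (1 : IndSets G → ℂ) (vac x I) +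
      w x / (1 + w x) * (1 : IndSets G → ℂ) (occ G x I) = 1 := by
    intro x _
    have := hw x
    simp only [Pi.one_apply]
    field_simp
  rw [Finset.sum_congr rfl this, Finset.sum_const, nsmul_eq_mul, Finset.card_univ]
  simp only [Pi.one_apply]
  field_simp

/-- The contraction of the gauge bounds the spectral radius. -/
lemma spr_lt_one [Nonempty V] (hH : ∀ A, 1 ≤ H A) {w : V → ℂ} (hw : ∀ x, 1 + w x ≠ 0) {c : ℝ}
    (hc0 : 0 < c)
    (hc : ∀ A : Finset V, A.Nonempty → ∑ x ∈ A, (‖1 / (1 + w x)‖ * H (A.erase x) +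
      ‖w x / (1 + w x)‖ * H (A.erase x ∪ G.neighborFinset x)) ≤ (A.card - c) * H A)
    (h1 : (glauber G w).mulVec 1 = 1) : spectralRadius ℂ (modConst (glauber G w) h1) < 1 := by
  have hn : (0:ℝ) < Fintype.card V := by exact_mod_cast Fintype.card_pos
  set P := glauber G w with hP
  set ρ : ℝ := 1 - c / Fintype.card V with hρ
  have hρ1 : ρ < 1 := by rw [hρ]; have : 0 < c / Fintype.card V := by positivity
                         linarith
  -- the eigenvalues have modulus at most `max ρ 0`
  have key : ∀ μ : ℂ, μ ∈ spectrum ℂ (modConst P h1) → ‖μ‖ ≤ max ρ 0 := by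
    intro μ hμ
    rw [← Module.End.hasEigenvalue_iff_mem_spectrum] at hμ
    obtain ⟨v, hv⟩ := hμ.exists_hasEigenvector
    obtain ⟨f, rfl⟩ := Submodule.Quotient.mk_surjective _ v
    have hv1 := hv.apply_eq_smul
    have hv2 := hv.2
    have hmk : Submodule.Quotient.mk (p := Submodule.span ℂ {(1 : IndSets G → ℂ)})
        (P.mulVec f) = Submodule.Quotient.mk (μ • f) := by
      have : modConst P h1 (Submodule.Quotient.mk f) =
          Submodule.Quotient.mk (P.mulVec f) := by
        unfold modConst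
        rw [Submodule.mapQ_apply]
        rfl
      rw [← this, hv1]; rfl
    rw [Submodule.Quotient.eq, Submodule.mem_span_singleton] at hmk
    obtain ⟨a, ha⟩ := hmk
    have hPf : ∀ I, P.mulVec f I = μ * f I + a := by
      intro I
      have := congrFun ha I
      simp only [Pi.smul_apply, Pi.one_apply, smul_eq_mul, mul_one, Pi.sub_apply] at this
      rw [this]; ring
    -- `f` is not constant
    have hnc : ∃ I J, f I ≠ f J := by
      by_contra hcon
      push Not at hcon
      apply hv2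
      rw [Submodule.Quotient.mk_eq_zero, Submodule.mem_span_singleton]
      refine ⟨f emp, ?_⟩
      funext I
      simp only [Pi.smul_apply, Pi.one_apply, smul_eq_mul, mul_one]
      exact hcon _ _
    obtain ⟨I₀, J₀, hIJ⟩ := hnc
    -- iterate
    obtain ⟨M, hM⟩ : ∃ M : ℝ, ∀ I, ‖f I‖ ≤ M := by
      refine ⟨∑ I, ‖f I‖, fun I => ?_⟩
      exact Finset.single_le_sum (f := fun I => ‖f I‖) (fun _ _ => norm_nonneg _)
        (Finset.mem_univ I)
    have hrep0 : Rep G H f (M * H Finset.univ) :=
      Rep.base' hH (fun I J h => by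
        have : I = J := IndSets.ext' (by simpa using h)
        rw [this]) hM
    have hit : ∀ k : ℕ, ∃ b : ℂ, Rep G H (fun I => μ ^ k * f I + b)
        (ρ ^ k * (M * H Finset.univ)) := by
      intro k
      induction k with
      | zero => exact ⟨0, by simpa using hrep0⟩
      | succ k ih =>
        obtain ⟨b, hb⟩ := ih
        have h2 := hb.step hH hw hc
        refine ⟨μ ^ k * a + b, ?_⟩
        have h3 : (glauber G w).mulVec (fun I => μ ^ k * f I + b) =
            fun I => μ ^ (k + 1) * f I + (μ ^ k * a + b) := by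
          have e1 : (fun I => μ ^ k * f I + b) = μ ^ k • f + b • (1 : IndSets G → ℂ) := by
            funext I; simp
          rw [e1, Matrix.mulVec_add, Matrix.mulVec_smul, Matrix.mulVec_smul, h1]
          funext I
          simp only [Pi.add_apply, Pi.smul_apply, smul_eq_mul, Pi.one_apply, mul_one]
          change μ ^ k * P.mulVec f I + b = _
          rw [hPf]; ring
        rw [h3] at h2
        refine Rep.mono _ _ _ h2 (le_of_eq ?_)
        rw [pow_succ]; ring
    have hbound : ∀ k : ℕ, ‖μ‖ ^ k * ‖f I₀ - f J₀‖ ≤ 2 * (M * H Finset.univ) * ρ ^ k := by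
      intro k
      obtain ⟨b, hb⟩ := hit k
      obtain ⟨d, hd⟩ := hb.close hH
      have e1 := hd I₀
      have e2 := hd J₀
      have e3 : μ ^ k * (f I₀ - f J₀) = (μ ^ k * f I₀ + b - d) - (μ ^ k * f J₀ + b - d) := by ring
      rw [← norm_pow, ← norm_mul, e3]
      refine (norm_sub_le _ _).trans ?_
      linarith
    have hd0 : 0 < ‖f I₀ - f J₀‖ := by
      rw [norm_pos_iff, sub_ne_zero]; exact hIJ
    by_contra hcon
    push Not at hcon
    have hμ0 : 0 < ‖μ‖ := (le_max_right _ _).trans_lt hcon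
    have hρμ : ρ < ‖μ‖ := (le_max_left _ _).trans_lt hcon
    have hρ0 : 0 ≤ ρ := by
      by_contra hneg
      push Not at hneg
      have := hbound 1
      rw [pow_one, pow_one] at this
      have h3 : 0 < ‖μ‖ * ‖f I₀ - f J₀‖ := by positivity
      have h4 : 0 ≤ M * H Finset.univ := by
        have := (norm_nonneg _).trans (hM emp)
        have := hH Finset.univ
        positivity
      nlinarith
    have hlim : Filter.Tendsto (fun k : ℕ => 2 * (M * H Finset.univ) * (ρ / ‖μ‖) ^ k)
        Filter.atTop (nhds 0) := by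
      have := (tendsto_pow_atTop_nhds_zero_of_lt_one (div_nonneg hρ0 hμ0.le)
        ((div_lt_one hμ0).2 hρμ)).const_mul (2 * (M * H Finset.univ))
      simpa using this
    have hge : ∀ k : ℕ, ‖f I₀ - f J₀‖ ≤ 2 * (M * H Finset.univ) * (ρ / ‖μ‖) ^ k := by
      intro k
      have h5 : 0 < ‖μ‖ ^ k := pow_pos hμ0 k
      rw [div_pow, mul_div_assoc', le_div_iff₀ h5, mul_comm]
      exact hbound k
    exact absurd (ge_of_tendsto' hlim hge) (not_le.2 hd0)
  have hle : spectralRadius ℂ (modConst P h1) ≤ ENNReal.ofReal (max ρ 0) := by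
    unfold spectralRadius
    refine iSup₂_le fun μ hμ => ?_
    have : ((‖μ‖₊ : NNReal) : ENNReal) = ENNReal.ofReal ‖μ‖ := by
      rw [← coe_nnnorm, ENNReal.ofReal_coe_nnreal]
    rw [this]
    exact ENNReal.ofReal_le_ofReal (key μ hμ)
  refine hle.trans_lt ?_
  rw [← ENNReal.ofReal_one]
  exact (ENNReal.ofReal_lt_ofReal_iff one_pos).2 (max_lt hρ1 one_pos)

variable (G) in
/-- The weights of the exploration: the key estimate. -/
lemma key_estimate {Δ : ℕ} (hΔ : 2 ≤ Δ) (hdeg : ∀ x, G.degree x ≤ Δ) {c0 s e : ℝ}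
    (hc0 : c0 = 1 / (8 * (Δ:ℝ) ^ 2)) (hs : s = c0 / (4 * (Δ:ℝ) ^ 2)) (he : e = s * c0 / 24)
    {p q : V → ℂ} {T : V → ℝ} (hT0 : ∀ x, 0 ≤ T x) (hT1 : ∀ x, T x ≤ 1 / Δ)
    (hp : ∀ x, ‖p x‖ ≤ T x + e) (hq : ∀ x, ‖q x‖ ≤ 1 - T x + e) (A : Finset V)
    (hA : A.Nonempty) :
    ∑ x ∈ A, (‖q x‖ * Real.exp (s * h G Δ (A.erase x)) +
      ‖p x‖ * Real.exp (s * h G Δ (A.erase x ∪ G.neighborFinset x))) ≤
      (A.card - s * c0 / 2) * Real.exp (s * h G Δ A) := by
  have hΔ' : (2:ℝ) ≤ Δ := by exact_mod_cast hΔ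
  have hΔ0 : (0:ℝ) < Δ := by linarith
  have hc0p : 0 < c0 := by rw [hc0]; positivity
  have hsp : 0 < s := by rw [hs]; positivity
  have hep : 0 < e := by rw [he]; positivity
  have hc01 : c0 ≤ 1 := by
    rw [hc0, div_le_one (by positivity)]; nlinarith
  have hsΔ : s * Δ ≤ 1 := by
    rw [hs, div_mul_eq_mul_div, div_le_one (by positivity)]
    nlinarith
  have hs1 : s ≤ 1 := by nlinarith
  have hsq : s ^ 2 * (Δ:ℝ) ^ 2 = s * c0 / 4 := by
    rw [pow_two, mul_assoc]
    have : s * (Δ:ℝ) ^ 2 = c0 / 4 := by rw [hs]; field_simp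
    rw [this]; ring
  have step : ∀ x ∈ A, ‖q x‖ * Real.exp (s * h G Δ (A.erase x)) +
      ‖p x‖ * Real.exp (s * h G Δ (A.erase x ∪ G.neighborFinset x)) ≤
      (1 + s * (- du G Δ A x + (1 / Δ) * dv G Δ A x) + s * c0 / 2) *
        Real.exp (s * h G Δ A) := by
    intro x hx
    set u := du G Δ A x with hu
    set v := dv G Δ A x with hv
    have hu0 : 0 ≤ u := du_ge G hΔ hdeg A hx
    have hu1 : u ≤ 1 := du_le G hΔ hdeg A hx
    have hv0 : 0 ≤ v := dv_nonneg G hΔ hdeg A x
    have hvΔ : v ≤ Δ := dv_le G hΔ hdeg A x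
    have e1 : Real.exp (s * h G Δ (A.erase x)) = Real.exp (-(s * u)) * Real.exp (s * h G Δ A) := by
      rw [← Real.exp_add]; congr 1
      rw [hu]; unfold du; ring
    have e2 : Real.exp (s * h G Δ (A.erase x ∪ G.neighborFinset x)) =
        Real.exp (s * (v - u)) * Real.exp (s * h G Δ A) := by
      rw [← Real.exp_add]; congr 1
      rw [hu, hv]; unfold du dv; ring
    rw [e1, e2]
    have hE : 0 < Real.exp (s * h G Δ A) := Real.exp_pos _
    have b1 : Real.exp (-(s * u)) ≤ 1 - s * u + s ^ 2 * (Δ:ℝ) ^ 2 := by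
      have habs : |-(s * u)| ≤ 1 := by
        rw [abs_neg, abs_of_nonneg (by positivity)]
        nlinarith
      have := (abs_le.1 (Real.abs_exp_sub_one_sub_id_le habs)).2
      have h2 : (-(s * u)) ^ 2 ≤ s ^ 2 * (Δ:ℝ) ^ 2 := by
        have h3 : u ≤ Δ := by linarith
        have h4 : s * u ≤ s * Δ := mul_le_mul_of_nonneg_left h3 hsp.le
        have h5 : 0 ≤ s * u := by positivity
        nlinarith
      linarith
    have b2 : Real.exp (s * (v - u)) ≤ 1 + s * (v - u) + s ^ 2 * (Δ:ℝ) ^ 2 := by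
      have h3 : s * (v - u) ≤ s * Δ := mul_le_mul_of_nonneg_left (by linarith) hsp.le
      have h4 : - (s * Δ) ≤ s * (v - u) := by
        have : s * (-Δ) ≤ s * (v - u) := mul_le_mul_of_nonneg_left (by linarith) hsp.le
        linarith
      have habs : |s * (v - u)| ≤ 1 := abs_le.2 ⟨by linarith, by linarith⟩
      have := (abs_le.1 (Real.abs_exp_sub_one_sub_id_le habs)).2
      have h2 : (s * (v - u)) ^ 2 ≤ s ^ 2 * (Δ:ℝ) ^ 2 := by
        have : |s * (v - u)| ≤ |s * Δ| := by
          rw [abs_of_nonneg (by positivity : 0 ≤ s * (Δ:ℝ))]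
          exact abs_le.2 ⟨h4, h3⟩
        have := sq_le_sq.2 this
        rwa [mul_pow s (Δ:ℝ)] at this
      linarith
    have c1 : Real.exp (-(s * u)) ≤ 3 := by
      have : Real.exp (-(s * u)) ≤ Real.exp 0 := Real.exp_le_exp.2 (by
        have : 0 ≤ s * u := by positivity
        linarith)
      rw [Real.exp_zero] at this; linarith
    have c2 : Real.exp (s * (v - u)) ≤ 3 := by
      have : Real.exp (s * (v - u)) ≤ Real.exp 1 := Real.exp_le_exp.2 (by
        have : s * (v - u) ≤ s * Δ := mul_le_mul_of_nonneg_left (by linarith) hsp.le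
        linarith)
      have := Real.exp_one_lt_d9
      linarith
    have c3 : 0 ≤ 1 - T x := by
      have := hT1 x
      have : 1 / (Δ:ℝ) ≤ 1 := by rw [div_le_one hΔ0]; linarith
      linarith [hT1 x]
    have f1 : ‖q x‖ * Real.exp (-(s * u)) ≤ (1 - T x + e) * Real.exp (-(s * u)) :=
      mul_le_mul_of_nonneg_right (hq x) (Real.exp_pos _).le
    have f2 : ‖p x‖ * Real.exp (s * (v - u)) ≤ (T x + e) * Real.exp (s * (v - u)) :=
      mul_le_mul_of_nonneg_right (hp x) (Real.exp_pos _).le
    have f3 : (1 - T x) * Real.exp (-(s * u)) ≤ (1 - T x) * (1 - s * u + s ^ 2 * (Δ:ℝ) ^ 2) :=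
      mul_le_mul_of_nonneg_left b1 c3
    have f4 : T x * Real.exp (s * (v - u)) ≤ T x * (1 + s * (v - u) + s ^ 2 * (Δ:ℝ) ^ 2) :=
      mul_le_mul_of_nonneg_left b2 (hT0 x)
    have f5 : e * Real.exp (-(s * u)) ≤ e * 3 := mul_le_mul_of_nonneg_left c1 hep.le
    have f6 : e * Real.exp (s * (v - u)) ≤ e * 3 := mul_le_mul_of_nonneg_left c2 hep.le
    have f7 : T x * v ≤ 1 / Δ * v := mul_le_mul_of_nonneg_right (hT1 x) hv0
    have f8 : s * (T x * v) ≤ s * (1 / Δ * v) := mul_le_mul_of_nonneg_left f7 hsp.le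
    have f9 : ‖q x‖ * Real.exp (-(s * u)) + ‖p x‖ * Real.exp (s * (v - u)) ≤
        1 + s * (- u + (1 / Δ) * v) + s * c0 / 2 := by
      have : 6 * e = s * c0 / 4 := by rw [he]; ring
      have : (1 - T x) * (1 - s * u + s ^ 2 * (Δ:ℝ) ^ 2) +
          T x * (1 + s * (v - u) + s ^ 2 * (Δ:ℝ) ^ 2) =
          1 - s * u + s * (T x * v) + s ^ 2 * (Δ:ℝ) ^ 2 := by ring
      nlinarith
    have f10 := mul_le_mul_of_nonneg_right f9 hE.le
    linarith
  refine (Finset.sum_le_sum step).trans ?_
  rw [← Finset.sum_mul]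
  refine mul_le_mul_of_nonneg_right ?_ (Real.exp_pos _).le
  have hd := drift G hΔ hdeg A
  rw [Finset.sum_add_distrib, Finset.sum_add_distrib, ← Finset.mul_sum, Finset.sum_const,
    Finset.sum_const, nsmul_eq_mul, nsmul_eq_mul, mul_one]
  have hd' : s * ∑ x ∈ A, (- du G Δ A x + (1 / Δ) * dv G Δ A x) ≤ s * (- c0 * A.card) := by
    rw [hc0]; exact mul_le_mul_of_nonneg_left hd hsp.le
  have hA1 : (1:ℝ) ≤ A.card := by exact_mod_cast hA.card_pos
  have : s * c0 / 2 * 1 ≤ s * c0 / 2 * A.card :=
    mul_le_mul_of_nonneg_left hA1 (by positivity)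
  linarith

end proof

/-- **Uniform complex contraction region for hard-core Glauber dynamics.** For every `Δ ≥ 2` there
is a domain `D` in the complex plane which contains the closed interval `[0, 1/(Δ-1)]` such that for
every finite graph `G` of maximum degree at most `Δ` and all vertex-dependent fugacities `w x ∈ D`,
the heat-bath transition matrix is well defined (`1 + w x ≠ 0`), fixes the constants, and the
linear map it induces on functions modulo constants has spectral radius less than `1`. -/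
theorem result (Δ : ℕ) (hΔ : 2 ≤ Δ) :
    ∃ D : Set ℂ, IsOpen D ∧ IsConnected D ∧
      (∀ t : ℝ, 0 ≤ t → t ≤ 1 / ((Δ : ℝ) - 1) → (t : ℂ) ∈ D) ∧
      ∀ (V : Type u) [Fintype V] [Nonempty V] [DecidableEq V] (G : SimpleGraph V)
        [DecidableRel G.Adj], G.maxDegree ≤ Δ →
        ∀ w : V → ℂ, (∀ x, w x ∈ D) →
          (∀ x, 1 + w x ≠ 0) ∧
          ∃ h : (glauber G w).mulVec 1 = 1, spectralRadius ℂ (modConst (glauber G w) h) < 1 := by
  have hΔ' : (2:ℝ) ≤ Δ := by exact_mod_cast hΔ
  have hΔ0 : (0:ℝ) < Δ := by linarith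
  obtain ⟨c0, hc0⟩ : ∃ c0 : ℝ, c0 = 1 / (8 * (Δ:ℝ) ^ 2) := ⟨_, rfl⟩
  obtain ⟨s, hs⟩ : ∃ s : ℝ, s = c0 / (4 * (Δ:ℝ) ^ 2) := ⟨_, rfl⟩
  obtain ⟨e, he⟩ : ∃ e : ℝ, e = s * c0 / 24 := ⟨_, rfl⟩
  have hc0p : 0 < c0 := by rw [hc0]; positivity
  have hsp : 0 < s := by rw [hs]; positivity
  have hep : 0 < e := by rw [he]; positivity
  have hc01 : c0 ≤ 1 := by rw [hc0, div_le_one (by positivity)]; nlinarith
  have hs1 : s ≤ 1 := by
    rw [hs, div_le_one (by positivity)]; nlinarith
  have he1 : e ≤ 1 / 2 := by rw [he]; nlinarith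
  set K : Set ℂ := (fun t : ℝ => (t : ℂ)) '' Set.Icc 0 (1 / ((Δ : ℝ) - 1)) with hK
  have hKne : K.Nonempty := ⟨_, 0, ⟨le_rfl, div_nonneg zero_le_one (by linarith)⟩, rfl⟩
  have hKconv : Convex ℝ K := by
    have := (convex_Icc (0:ℝ) (1 / ((Δ : ℝ) - 1))).linear_image Complex.ofRealCLM.toLinearMap
    exact this
  refine ⟨Metric.thickening (e / 2) K, Metric.isOpen_thickening, ⟨?_, ?_⟩, ?_, ?_⟩
  · obtain ⟨z, hz⟩ := hKne
    exact ⟨z, Metric.self_subset_thickening (by positivity) K hz⟩
  · exact (hKconv.thickening _).isPreconnected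
  · intro t h0 h1
    exact Metric.self_subset_thickening (by positivity) K ⟨t, ⟨h0, h1⟩, rfl⟩
  intro V _ _ _ G _ hG w hwD
  have hdeg : ∀ x, G.degree x ≤ Δ := fun x => (G.degree_le_maxDegree x).trans hG
  have hex : ∀ x, ∃ t : ℝ, 0 ≤ t ∧ t ≤ 1 / ((Δ : ℝ) - 1) ∧ ‖w x - t‖ < e / 2 := by
    intro x
    obtain ⟨z, ⟨t, ht, rfl⟩, hz⟩ := Metric.mem_thickening_iff.1 (hwD x)
    exact ⟨t, ht.1, ht.2, by rw [← dist_eq_norm]; exact hz⟩
  choose t ht0 ht1 htw using hex
  have hnorm : ∀ x, 1 / 2 ≤ ‖1 + w x‖ := by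
    intro x
    have h1 : (1 + (t x : ℂ)) = (1 + w x) - (w x - t x) := by ring
    have h2 : ‖(1 + (t x : ℂ))‖ = 1 + t x := by
      have : (1 + (t x : ℂ)) = ((1 + t x : ℝ) : ℂ) := by push_cast; rfl
      rw [this, Complex.norm_real, Real.norm_of_nonneg (by linarith [ht0 x])]
    have h3 : ‖(1 + (t x : ℂ))‖ ≤ ‖1 + w x‖ + ‖w x - t x‖ := by
      rw [h1]; exact norm_sub_le _ _
    have := htw x
    have := ht0 x
    linarith
  have hne : ∀ x, 1 + w x ≠ 0 := by
    intro x h
    have := hnorm x
    rw [h, norm_zero] at this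
    linarith
  refine ⟨hne, glauber_one hne, ?_⟩
  have hq0 : ∀ x, ‖1 / (1 + w x) - ((1 / (1 + t x) : ℝ) : ℂ)‖ ≤ e := by
    intro x
    have h0 := ht0 x
    have h1 : (1 + (t x : ℂ)) ≠ 0 := by
      have : (1 + (t x : ℂ)) = ((1 + t x : ℝ) : ℂ) := by push_cast; rfl
      rw [this]; exact_mod_cast (by linarith : (1 + t x) ≠ 0)
    have h2 : 1 / (1 + w x) - ((1 / (1 + t x) : ℝ) : ℂ) =
        - (w x - t x) / ((1 + w x) * (1 + t x)) := by
      have := hne x
      push_cast
      field_simp
      ring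
    rw [h2, norm_div, norm_neg, norm_mul]
    have h3 : ‖(1 + (t x : ℂ))‖ = 1 + t x := by
      have : (1 + (t x : ℂ)) = ((1 + t x : ℝ) : ℂ) := by push_cast; rfl
      rw [this, Complex.norm_real, Real.norm_of_nonneg (by linarith)]
    rw [h3]
    have h4 : 1 / 2 ≤ ‖1 + w x‖ * (1 + t x) := by
      have := hnorm x
      nlinarith
    rw [div_le_iff₀ (by linarith)]
    have := htw x
    nlinarith
  have hq : ∀ x, ‖1 / (1 + w x)‖ ≤ 1 - t x / (1 + t x) + e := by
    intro x
    have h0 := ht0 x
    have h1 : ‖((1 / (1 + t x) : ℝ) : ℂ)‖ = 1 - t x / (1 + t x) := by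
      rw [Complex.norm_real, Real.norm_of_nonneg (by positivity)]
      field_simp; ring
    calc ‖1 / (1 + w x)‖ = ‖(1 / (1 + w x) - ((1 / (1 + t x) : ℝ) : ℂ)) +
          ((1 / (1 + t x) : ℝ) : ℂ)‖ := by rw [sub_add_cancel]
      _ ≤ e + (1 - t x / (1 + t x)) := by
          rw [← h1]; exact (norm_add_le _ _).trans (add_le_add (hq0 x) le_rfl)
      _ = _ := by ring
  have hp : ∀ x, ‖w x / (1 + w x)‖ ≤ t x / (1 + t x) + e := by
    intro x
    have h0 := ht0 x
    have h1 : ‖((t x / (1 + t x) : ℝ) : ℂ)‖ = t x / (1 + t x) := by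
      rw [Complex.norm_real, Real.norm_of_nonneg (by positivity)]
    have h2 : w x / (1 + w x) = ((t x / (1 + t x) : ℝ) : ℂ) -
        (1 / (1 + w x) - ((1 / (1 + t x) : ℝ) : ℂ)) := by
      have h3 : w x / (1 + w x) = 1 - 1 / (1 + w x) := by
        have := hne x
        field_simp; ring
      have h4 : ((t x / (1 + t x) : ℝ) : ℂ) = 1 - ((1 / (1 + t x) : ℝ) : ℂ) := by
        have : (t x / (1 + t x) : ℝ) = 1 - 1 / (1 + t x) := by field_simp; ring
        rw [this]; push_cast; rfl
      rw [h3, h4]; ring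
    rw [h2]
    refine (norm_sub_le _ _).trans ?_
    rw [h1]
    exact add_le_add le_rfl (hq0 x)
  have hT0 : ∀ x, 0 ≤ t x / (1 + t x) := fun x => by
    have := ht0 x; positivity
  have hT1 : ∀ x, t x / (1 + t x) ≤ 1 / Δ := by
    intro x
    have h0 := ht0 x
    have h1 := ht1 x
    rw [div_le_div_iff₀ (by linarith) hΔ0]
    rw [le_div_iff₀ (by linarith)] at h1
    linarith
  have hH : ∀ A : Finset V, 1 ≤ Real.exp (s * Pool.Agent.H999R2.HC.h G Δ A) := by
    intro A
    rw [← Real.exp_zero]
    exact Real.exp_le_exp.2 (mul_nonneg hsp.le (Pool.Agent.H999R2.HC.h_nonneg G hΔ hdeg A))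
  exact spr_lt_one hH hne (c := s * c0 / 2) (by positivity)
    (fun A hA => key_estimate G hΔ hdeg hc0 hs he hT0 hT1 hp hq A hA) (glauber_one hne)

end Pool.Agent.Results.MP_eb4d96_pr.UniformContraction
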